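import Mathlib
import Pool.Agent.Y942.SP.Quad

set_option autoImplicit false

namespace Pool.Agent.Results.MP_ff7b28_co.QuadraticSaving

/-- For every real `C > 1` and all large `k` some word over an alphabet of `⌊C k⌋` letters, of length
at most `(1/2 - c) k²` with the explicit constant `c = min(C - 1, 1)² / 10^25`, contains every
permutation of length `k` as a pattern. -/
theorem result : ∀ C : ℝ, 1 < C → ∃ K : ℕ, ∀ k : ℕ, K ≤ k → ∃ w : List ℕ,
    (∀ x ∈ w, x < ⌊C * (k : ℝ)⌋₊) ∧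
    (∀ σ : Equiv.Perm (Fin k), ∃ e : Fin k → Fin w.length,
          StrictMono e ∧ ∀ i j : Fin k, (w.get (e i) < w.get (e j) ↔ σ i < σ j)) ∧
    (w.length : ℝ) ≤ (1 / 2 - (min (C - 1) 1) ^ 2 / 10 ^ 25) * ((k : ℝ) ^ 2) :=
  fun C hC => Pool.Agent.Y942.SP.main_C C hC

end Pool.Agent.Results.MP_ff7b28_co.QuadraticSaving
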